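import Pool.Agent.Helper53.LX.Hi
import Pool.Agent.Helper34.LU.Df
import Pool.Agent.Helper59.LT.PolB

/-!
# LU (PROJECT LT2), block G: `half_PU`, `card_half`, `TH_main`

The theta function of block F is restricted to the unit coordinates (`exL`); the lattice is the
image of `lam (psq * P)`.
-/

set_option autoImplicit false

namespace Pool.Agent.Helper53.LX

open Finset Pool.Agent.Helper34.LT LTG Pool.Agent.Helper34.LU
open Pool.Agent.Helper44.LT (PU)

theorem th_mod (q a u : ℕ) (ha : ¬ q ∣ a) (hu : Nat.Coprime u q) (h1 : 1 ≤ u) (h2 : u < q) :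
    ((q - u) * a) % q = q - (u * a) % q ∧ 0 < (u * a) % q ∧ (u * a) % q < q := by
  have hua : ¬ q ∣ u * a := fun h => ha ((Nat.Coprime.dvd_mul_left hu.symm).1 h)
  have h3 : 0 < (u * a) % q := Nat.pos_of_ne_zero fun h => hua (Nat.dvd_of_mod_eq_zero h)
  have h4 : (u * a) % q < q := Nat.mod_lt _ (by omega)
  refine ⟨?_, h3, h4⟩
  have h5 : (q - u) * a + u * a = q * a := by
    rw [← add_mul]
    congr 1
    omega
  have h7 : (((q - u) * a) % q + (u * a) % q) % q = 0 := by
    rw [← Nat.add_mod, h5]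
    simp
  have h8 : ((q - u) * a) % q < q := Nat.mod_lt _ (by omega)
  obtain ⟨k, hk⟩ := Nat.dvd_of_mod_eq_zero h7
  have hk2 : k < 2 := by
    by_contra hc
    have : q * 2 ≤ q * k := Nat.mul_le_mul_left q (by omega)
    omega
  have hk1 : k ≠ 0 := by
    rintro rfl
    omega
  have : k = 1 := by omega
  subst this
  omega

theorem mem_PU (q a b u : ℕ) : u ∈ PU q a b ↔
    ((1 ≤ u ∧ u ≤ q - 1) ∧ q < (u * a) % q + (u * b) % q) ∧ Nat.Coprime u q := by
  simp [PU]

theorem half_PU (q a b : ℕ) (h3 : 3 ≤ q) (ha : ¬ q ∣ a) (hb : ¬ q ∣ b)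
    (hab : Nat.Coprime (a + b) q) : HS q (PU q a b) := by
  refine ⟨h3, ?_, ?_⟩
  · intro u hu
    rw [mem_PU] at hu
    exact ⟨hu.1.1.1, by omega, hu.2⟩
  · intro u h1 h2 hc
    obtain ⟨a1, a2, a3⟩ := th_mod q a u ha hc h1 h2
    obtain ⟨b1, b2, b3⟩ := th_mod q b u hb hc h1 h2
    have hne : (u * a) % q + (u * b) % q ≠ q := by
      intro h
      have h4 : q ∣ u * (a + b) := by
        rw [mul_add]
        apply Nat.dvd_of_mod_eq_zero
        rw [Nat.add_mod, h]
        simp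
      have h5 : q ∣ 1 := by
        have h6 : Nat.Coprime (u * (a + b)) q := Nat.Coprime.mul_left hc hab
        have h7 := Nat.gcd_eq_right h4
        rw [Nat.Coprime] at h6
        omega
      have h6 := Nat.le_of_dvd one_pos h5
      omega
    have hc' : Nat.Coprime (q - u) q := (Nat.coprime_self_sub_left h2.le).2 hc
    rw [mem_PU, mem_PU, a1, b1]
    constructor
    · rintro ⟨⟨-, h4⟩, -⟩ ⟨⟨-, h5⟩, -⟩
      omega
    · intro h
      refine ⟨⟨⟨h1, by omega⟩, ?_⟩, hc⟩
      by_contra h4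
      refine h ⟨⟨⟨by omega, by omega⟩, by omega⟩, hc'⟩

theorem card_half (q : ℕ) (s : Finset ℕ) (hs : HS q s) : s.card = q.totient / 2 := by
  have := card_HS q s hs
  omega

theorem psq_mul (q : ℕ) (hq : q ≠ 0) :
    psq q * Polynomial.cyclotomic q ℤ = Polynomial.X ^ q - 1 := by
  rw [← Polynomial.prod_cyclotomic_eq_X_pow_sub_one (Nat.pos_of_ne_zero hq) ℤ,
    ← Nat.cons_self_properDivisors hq, Finset.prod_cons, psq, mul_comm]

theorem psq_zero (q u : ℕ) (hq : q ≠ 0) (hu : ¬ Nat.Coprime u q) :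
    Polynomial.aeval (zt q ^ u) (psq q) = 0 := by
  have h1 := congrArg (Polynomial.aeval (zt q ^ u)) (psq_mul q hq)
  rw [map_mul, map_sub, map_pow, Polynomial.aeval_X, map_one, ← pow_mul, mul_comm u q, pow_mul,
    Pool.Agent.Helper59.LT.zt_pow q hq, one_pow, sub_self] at h1
  refine (mul_eq_zero.1 h1).resolve_right ?_
  intro h2
  have h3 : Polynomial.IsRoot (Polynomial.cyclotomic q ℂ) (zt q ^ u) := by
    rw [Polynomial.IsRoot.def, ← Polynomial.map_cyclotomic_int, Polynomial.eval_map,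
      ← h2, Polynomial.aeval_def, algebraMap_int_eq]
  have : NeZero ((q : ℕ) : ℂ) := ⟨by exact_mod_cast hq⟩
  rw [Polynomial.isRoot_cyclotomic_iff] at h3
  exact hu (((Pool.Agent.Helper59.LT.zt_prim q hq).pow_iff_coprime (Nat.pos_of_ne_zero hq) u).1 h3)

theorem psq_ne (q u : ℕ) (hq : q ≠ 0) (hu : Nat.Coprime u q) :
    Polynomial.aeval (zt q ^ u) (psq q) ≠ 0 := by
  rw [psq, map_prod]
  refine Finset.prod_ne_zero_iff.2 fun d hd => ?_
  intro h2
  obtain ⟨hd1, hd2⟩ := Nat.mem_properDivisors.1 hd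
  have hd0 : d ≠ 0 := by
    rintro rfl
    exact hq (Nat.eq_zero_of_zero_dvd hd1)
  have h3 : Polynomial.IsRoot (Polynomial.cyclotomic d ℂ) (zt q ^ u) := by
    rw [Polynomial.IsRoot.def, ← Polynomial.map_cyclotomic_int, Polynomial.eval_map,
      ← h2, Polynomial.aeval_def, algebraMap_int_eq]
  have : NeZero ((d : ℕ) : ℂ) := ⟨by exact_mod_cast hd0⟩
  rw [Polynomial.isRoot_cyclotomic_iff] at h3
  have h4 := (Pool.Agent.Helper59.LT.zt_prim q hq).pow_of_coprime u hu
  have h5 := h3.unique h4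
  omega

theorem rhU_ne (q a b u : ℕ) (h3 : 3 ≤ q) (ha : ¬ q ∣ a) (hb : ¬ q ∣ b)
    (hu : u ∈ PU q a b) : rhU q a b u ≠ 0 := by
  have hq0 : (0 : ℝ) < q := by exact_mod_cast (by omega : 0 < q)
  obtain ⟨⟨⟨h1, h2⟩, h4⟩, hc⟩ := (mem_PU q a b u).1 hu
  obtain ⟨-, a1, a2⟩ := th_mod q a u ha hc h1 (by omega)
  obtain ⟨-, b1, b2⟩ := th_mod q b u hb hc h1 (by omega)
  have ha0 : 0 < al q a u := by
    unfold al
    have : (0 : ℝ) < ((u * a) % q : ℕ) := by exact_mod_cast a1
    positivity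
  have hb0 : 0 < al q b u := by
    unfold al
    have : (0 : ℝ) < ((u * b) % q : ℕ) := by exact_mod_cast b1
    positivity
  have hc0 : 1 < al q a u + al q b u := by
    unfold al
    rw [← add_div, one_lt_div hq0]
    exact_mod_cast h4
  have hB : Complex.betaIntegral (al q a u) (al q b u) ≠ 0 := by
    have h5 := Complex.Gamma_mul_Gamma_eq_betaIntegral (s := (al q a u : ℂ)) (t := (al q b u : ℂ))
      (by simpa using ha0) (by simpa using hb0)
    intro h6
    rw [h6, mul_zero] at h5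
    rcases mul_eq_zero.1 h5 with h7 | h7
    · exact Complex.Gamma_ne_zero_of_re_pos (by simpa using ha0) h7
    · exact Complex.Gamma_ne_zero_of_re_pos (by simpa using hb0) h7
  have hD : ((al q a u : ℂ) + (al q b u : ℂ) - 1) ≠ 0 := by
    have h5 : al q a u + al q b u - 1 ≠ 0 := by linarith
    have h6 : (((al q a u + al q b u - 1 : ℝ)) : ℂ) ≠ 0 := by exact_mod_cast h5
    push_cast at h6
    exact h6
  unfold rhU rho
  refine mul_ne_zero (div_ne_zero (mul_ne_zero (mul_ne_zero (mul_ne_zero two_ne_zero ?_)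
    Complex.I_ne_zero) (Complex.exp_ne_zero _)) (mul_ne_zero hB hD)) (psq_ne q u (by omega) hc)
  exact_mod_cast Real.pi_ne_zero

/-- extension by `0` -/
noncomputable def exL (q a b : ℕ) : (PU q a b → ℂ) →ₗ[ℂ] (Phi q a b → ℂ) :=
  LinearMap.pi fun u => if h : (u : ℕ) ∈ PU q a b then LinearMap.proj ⟨u, h⟩ else 0

theorem exL_in (q a b : ℕ) (z : PU q a b → ℂ) (u : Phi q a b) (h : (u : ℕ) ∈ PU q a b) :
    exL q a b z u = z ⟨u, h⟩ := by
  unfold exL
  rw [LinearMap.pi_apply, dif_pos h]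
  rfl

theorem exL_out (q a b : ℕ) (z : PU q a b → ℂ) (u : Phi q a b) (h : (u : ℕ) ∉ PU q a b) :
    exL q a b z u = 0 := by
  unfold exL
  rw [LinearMap.pi_apply, dif_neg h]
  rfl

theorem mem_PU' (q a b : ℕ) (u : Phi q a b) : (u : ℕ) ∈ PU q a b ↔ Nat.Coprime u q := by
  have h := u.2
  unfold PU
  rw [mem_filter]
  exact ⟨fun h => h.2, fun h' => ⟨h, h'⟩⟩

theorem PU_sub (q a b : ℕ) (u : PU q a b) : (u : ℕ) ∈ Phi q a b := by
  have h := u.2
  unfold PU at h
  exact (mem_filter.1 h).1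

theorem exL_lam (q a b : ℕ) (hq : q ≠ 0) (P : Polynomial ℤ) :
    exL q a b (lamS q (PU q a b) (rhU q a b) P) = lam q a b (psq q * P) := by
  funext u
  by_cases h : (u : ℕ) ∈ PU q a b
  · rw [exL_in q a b _ u h]
    simp only [lamS, lam, pt, rhU, map_mul]
    ring
  · rw [exL_out q a b _ u h]
    have h1 : ¬ Nat.Coprime u q := fun h' => h ((mem_PU' q a b u).2 h')
    simp only [lam, pt, map_mul, psq_zero q u hq h1]
    ring

/-- the injection of the index sets -/
def inj (q a b : ℕ) (u : PU q a b) : Phi q a b := ⟨u, PU_sub q a b u⟩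

theorem inj_inj (q a b : ℕ) : Function.Injective (inj q a b) := by
  intro u v h
  exact Subtype.ext (congrArg (fun x : Phi q a b => (x : ℕ)) h)

theorem exL_rt (q a b D k : ℕ) (τ : (Phi q a b → ℂ) → ℂ) (h : RT D k τ) :
    RT D k (fun z => τ (exL q a b z)) := by
  classical
  obtain ⟨A, hA⟩ := h
  refine ⟨fun m => A (Function.extend (inj q a b) m 0), fun z => ?_⟩
  have hi : Function.Injective (fun m : PU q a b → ℕ =>
      (Function.extend (inj q a b) m 0 : Phi q a b → ℕ)) := by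
    intro m m' hm
    funext i
    have := congrFun hm (inj q a b i)
    simpa only [(inj_inj q a b).extend_apply] using this
  have h1 := hA (exL q a b z)
  rw [← hi.hasSum_iff] at h1
  · refine h1.congr_fun ?_
    intro m
    simp only [Function.comp_apply]
    have e1 := Pool.Agent.Helper59.LT.sum_extend (inj q a b) (inj_inj q a b) m
    have e2 := Pool.Agent.Helper59.LT.prod_extend (inj q a b) (inj_inj q a b)
      (fun _ n => ((n.factorial : ℕ) : ℂ)) (fun _ => by simp) m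
    have e3 := Pool.Agent.Helper59.LT.prod_extend (inj q a b) (inj_inj q a b)
      (fun j n => exL q a b z j ^ n) (fun _ => pow_zero _) m
    rw [e1, e2, e3]
    congr 1
    refine Finset.prod_congr rfl fun u _ => ?_
    rw [exL_in q a b z (inj q a b u) u.2]
    rfl
  · intro n hn
    have h2 : ∃ u : Phi q a b, (u : ℕ) ∉ PU q a b ∧ n u ≠ 0 := by
      by_contra hcon
      push Not at hcon
      refine hn ⟨fun i => n (inj q a b i), ?_⟩
      funext u
      change Function.extend (inj q a b) (fun i => n (inj q a b i)) 0 u = n u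
      by_cases hu : (u : ℕ) ∈ PU q a b
      · have : u = inj q a b ⟨u, hu⟩ := rfl
        rw [this, (inj_inj q a b).extend_apply]
      · rw [Function.extend_apply', Pi.zero_apply, hcon u hu]
        rintro ⟨i, rfl⟩
        exact hu i.2
    obtain ⟨u, hu, hnu⟩ := h2
    have h3 : ∏ u, exL q a b z u ^ n u = 0 := by
      refine Finset.prod_eq_zero (Finset.mem_univ u) ?_
      rw [exL_out q a b z u hu, zero_pow hnu]
    rw [h3, mul_zero]

theorem zt_algebraic (q : ℕ) (hq : q ≠ 0) : IsAlgebraic ℚ (zt q) := by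
  refine ⟨Polynomial.X ^ q - 1, ?_, ?_⟩
  · intro h
    have h1 := congrArg (Polynomial.eval 0) h
    simp [hq] at h1
  · rw [map_sub, map_pow, Polynomial.aeval_X, map_one, Pool.Agent.Helper59.LT.zt_pow q hq, sub_self]

/-- `κ ρ / (2 π i)` is algebraic -/
theorem th_alg (q : ℕ) (s : Finset ℕ) (hs : HS q s) (ρ : ℕ → ℂ) (κ : s → ℂ)
    (c : Polynomial ℤ → ℂ) (F : (s → ℂ) → ℂ) (hne : ∃ z, F z ≠ 0) (h : QPS q s ρ κ c F) (v : s) :
    IsAlgebraic ℚ (κ v * ρ v / (2 * Real.pi * Complex.I)) := by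
  classical
  have h3 := hs.three
  have hq : q ≠ 0 := by omega
  have hpi : (2 * Real.pi * Complex.I : ℂ) ≠ 0 := Complex.two_pi_I_ne_zero
  have h1 : ∀ n : ℕ, ∃ e : ℤ, ∑ u : s, κ u * ρ u / (2 * Real.pi * Complex.I) *
      ((zt q ^ (u : ℕ)) ^ n - ((zt q ^ (u : ℕ))⁻¹) ^ n) = e := by
    intro n
    obtain ⟨e, he⟩ := Pool.Agent.Helper59.LT.pairing_gen q s ρ κ c F hne h 1 (Polynomial.X ^ n)
    refine ⟨e, ?_⟩
    have h2 : ∑ u : s, κ u * ρ u / (2 * Real.pi * Complex.I) *
      ((zt q ^ (u : ℕ)) ^ n - ((zt q ^ (u : ℕ))⁻¹) ^ n) =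
      (∑ u : s, κ u * ρ u *
      ((starRingEnd ℂ) (pt q s 1 u) * pt q s (Polynomial.X ^ n) u -
        (starRingEnd ℂ) (pt q s (Polynomial.X ^ n) u) * pt q s 1 u)) /
        (2 * Real.pi * Complex.I) := by
      rw [Finset.sum_div]
      refine Finset.sum_congr rfl fun u _ => ?_
      simp only [pt, map_one, map_pow, Polynomial.aeval_X, one_mul, mul_one,
        Pool.Agent.Helper59.LT.zt_conj q hq, inv_pow]
      ring
    rw [h2, he, mul_div_cancel_right₀ _ hpi]
  choose e he using h1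
  have h2 : (q : ℂ) * (κ v * ρ v / (2 * Real.pi * Complex.I)) =
      ∑ n ∈ range q, (e n : ℂ) * ((zt q ^ (v : ℕ))⁻¹) ^ n := by
    simp_rw [← he, Finset.sum_mul]
    rw [Finset.sum_comm]
    have h4 : ∀ u : s, ∑ n ∈ range q, κ u * ρ u / (2 * Real.pi * Complex.I) *
        ((zt q ^ (u : ℕ)) ^ n - ((zt q ^ (u : ℕ))⁻¹) ^ n) * ((zt q ^ (v : ℕ))⁻¹) ^ n =
        if u = v then (q : ℂ) * (κ u * ρ u / (2 * Real.pi * Complex.I)) else 0 := by
      intro u
      obtain ⟨u1, u2, u3⟩ := hs.mem u u.2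
      obtain ⟨v1, v2, v3⟩ := hs.mem v v.2
      have h5 : (u : ℕ) + v ≠ q := by
        intro h6
        have h7 := (hs.half u u1 u2 u3).1 u.2
        have h8 : q - (u : ℕ) = v := by omega
        rw [h8] at h7
        exact h7 v.2
      have h6 := Pool.Agent.Helper59.LT.zt_orth q v u hq v2 u2
      have h7 := Pool.Agent.Helper59.LT.zt_orth3 q v u hq v1 v2 u1 u2 (by omega)
      have h8 : ∀ n, κ u * ρ u / (2 * Real.pi * Complex.I) *
        ((zt q ^ (u : ℕ)) ^ n - ((zt q ^ (u : ℕ))⁻¹) ^ n) * ((zt q ^ (v : ℕ))⁻¹) ^ n =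
        κ u * ρ u / (2 * Real.pi * Complex.I) *
          ((zt q ^ (u : ℕ)) ^ n * ((zt q ^ (v : ℕ))⁻¹) ^ n -
          ((zt q ^ (u : ℕ))⁻¹) ^ n * ((zt q ^ (v : ℕ))⁻¹) ^ n) := by
        intro n
        ring
      simp_rw [h8]
      rw [← Finset.mul_sum, Finset.sum_sub_distrib, h6, h7, sub_zero]
      by_cases huv : u = v
      · rw [if_pos huv, if_pos (by rw [huv])]
        ring
      · rw [if_neg huv, if_neg (fun h9 => huv (Subtype.ext h9.symm)), mul_zero]
    simp_rw [h4]
    rw [Finset.sum_ite_eq' univ v, if_pos (mem_univ v)]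
  have h4 : κ v * ρ v / (2 * Real.pi * Complex.I) =
      (∑ n ∈ range q, (e n : ℂ) * ((zt q ^ (v : ℕ))⁻¹) ^ n) * (q : ℂ)⁻¹ := by
    have hq' : (q : ℂ) ≠ 0 := by exact_mod_cast hq
    rw [← h2]
    field_simp
  rw [h4]
  refine IsAlgebraic.mul ?_ ?_
  · have h5 : ∀ t : Finset ℕ, IsAlgebraic ℚ (∑ n ∈ t, (e n : ℂ) * ((zt q ^ (v : ℕ))⁻¹) ^ n) := by
      intro t
      induction t using Finset.induction_on with
      | empty => simpa using isAlgebraic_zero
      | insert a t ha ih =>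
        rw [Finset.sum_insert ha]
        refine IsAlgebraic.add (IsAlgebraic.mul ?_ ?_) ih
        · exact isAlgebraic_intCast _
        · exact ((zt_algebraic q hq).pow _).inv.pow _
    exact h5 _
  · exact (isAlgebraic_natCast q).inv

theorem TH_main (q a b : ℕ) (h3 : 3 ≤ q) (ha : ¬ q ∣ a) (hb : ¬ q ∣ b)
    (hab : Nat.Coprime (a + b) q) (τ : (Phi q a b → ℂ) → ℂ) (h : IsTauF q a b τ) :
    ∃ (κ : PU q a b → ℂ) (c : Polynomial ℤ → ℂ) (f : (PU q a b → ℂ) → ℂ),
      IsTh q (PU q a b) (rhU q a b) κ c f := by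
  have hq : q ≠ 0 := by omega
  have hs := half_PU q a b h3 ha hb hab
  have hd : Differentiable ℂ (fun z => τ (exL q a b z)) := by
    have h1 : Differentiable ℂ (fun z => exL q a b z) :=
      (LinearMap.toContinuousLinearMap (exL q a b)).differentiable
    exact h.diff.comp h1
  obtain ⟨κ, c, f0, f, g1, g2, g3, g4, g5, g6, g7, g8, g9, g10, g11⟩ :=
    G_gen_im q (PU q a b) hs _ rfl (rhU q a b) (fun u hu => rhU_ne q a b u h3 ha hb hu) (a + b) hab
      (fun z => τ (exL q a b z)) hd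
      (by
        rw [map_zero, h.zero])
      (by
        obtain ⟨z, hz1, hz2⟩ := h.ne
        refine ⟨fun u => z (inj q a b u), ?_⟩
        have h1 : exL q a b (fun u => z (inj q a b u)) = z := by
          funext u
          by_cases hu : (u : ℕ) ∈ PU q a b
          · rw [exL_in q a b _ u hu]
            rfl
          · rw [exL_out q a b _ u hu]
            exact (hz1 u fun h' => hu ((mem_PU' q a b u).2 h')).symm
        change τ (exL q a b _) ≠ 0
        rw [h1]
        exact hz2)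
      (by
        obtain ⟨D, hD, hr⟩ := h.rt
        exact ⟨D, hD, exL_rt q a b D 1 τ hr⟩)
      (by
        obtain ⟨w, hw⟩ := h.sym
        refine ⟨w, fun z => ?_⟩
        have h1 : exL q a b (fun u => zt q ^ ((u : ℕ) * (a + b)) * z u) =
            fun u : Phi q a b => zt q ^ ((u : ℕ) * (a + b)) * exL q a b z u := by
          funext u
          by_cases hu : (u : ℕ) ∈ PU q a b
          · rw [exL_in q a b _ u hu, exL_in q a b _ u hu]
          · rw [exL_out q a b _ u hu, exL_out q a b _ u hu, mul_zero]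
        change τ (exL q a b _) = _
        rw [h1, hw])
      (by
        intro P
        obtain ⟨l, c, hl⟩ := h.per (psq q * P)
        refine ⟨l.comp (exL q a b), c, fun z => ?_⟩
        change τ (exL q a b (z + _)) = Complex.exp (l (exL q a b z) + c) * τ (exL q a b z)
        rw [map_add, exL_lam q a b hq P, hl])
  refine ⟨κ, c, f0, hs, fun u hu => rhU_ne q a b u h3 ha hb hu, g1, g2, g4, ?_, ?_, ⟨0, g11⟩, g8,
    g10, fun u => th_alg q _ hs _ κ c f0 ⟨0, g11⟩ g4 u⟩
  · obtain ⟨D, hD, hr, -⟩ := g6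
    exact ⟨D, hD, hr⟩
  · obtain ⟨C, hC⟩ := g7
    exact ⟨C, fun z => (hC z).1⟩

end Pool.Agent.Helper53.LX
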