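import Pool.Agent.Helper93.LX.Xg
import Pool.Agent.Helper34.LU.Df
import Pool.Agent.Helper53.LT.Bm
import Pool.Agent.Helper59.LT.Lat

/-!
PROJECT LT2, block X: `B_main_of`, the box principle for the vector functions, from `BXI` and the
properties of the vector functions (block V), given as hypotheses.
-/

set_option autoImplicit false

namespace Pool.Agent.Helper53.LX

open Finset Pool.Agent.Helper34.LT LTG Pool.Agent.Helper34.LU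
open Pool.Agent.Helper93.LX (wI BXI)
open Pool.Agent.Helper53.LT (sum_sub)
open Pool.Agent.Helper59.LT (zt_pow zt_prim zt_ne zt_conj zt_norm)

noncomputable section

/-- `-u` -/
def bnu (q : ℕ) (u : UU q) : UU q :=
  ⟨q - u, by
    obtain ⟨⟨h1, h2⟩, h3⟩ := mem_UU.1 u.2
    exact mem_UU.2 ⟨⟨by omega, by omega⟩, (Nat.coprime_self_sub_left (by omega)).2 h3⟩⟩

theorem bnu_val (q : ℕ) (u : UU q) : ((bnu q u : UU q) : ℕ) = q - u := rfl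

theorem bnu_bnu (q : ℕ) (u : UU q) : bnu q (bnu q u) = u := by
  obtain ⟨⟨h1, h2⟩, h3⟩ := mem_UU.1 u.2
  apply Subtype.ext
  rw [bnu_val, bnu_val]
  omega

def bth (q : ℕ) (u : UU q) : ℂ := zt q ^ (u : ℕ) + (zt q ^ (u : ℕ))⁻¹

def bta (q : ℕ) (u : UU q) : ℂ := zt q ^ (u : ℕ) - (zt q ^ (u : ℕ))⁻¹

theorem zt_sub (q : ℕ) (u : UU q) : zt q ^ (q - (u : ℕ)) = (zt q ^ (u : ℕ))⁻¹ := by
  obtain ⟨⟨h1, h2⟩, h3⟩ := mem_UU.1 u.2
  have hq : q ≠ 0 := by omega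
  rw [← mul_eq_one_iff_eq_inv₀ (pow_ne_zero _ (zt_ne q)), ← pow_add,
    Nat.sub_add_cancel (by omega), zt_pow q hq]

theorem bth_nu (q : ℕ) (u : UU q) : bth q (bnu q u) = bth q u := by
  unfold bth
  rw [bnu_val, zt_sub, inv_inv, add_comm]

theorem bta_nu (q : ℕ) (u : UU q) : bta q (bnu q u) = -bta q u := by
  unfold bta
  rw [bnu_val, zt_sub, inv_inv]
  ring

theorem bta_ne (q : ℕ) (h3 : 3 ≤ q) (u : UU q) : bta q u ≠ 0 := by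
  obtain ⟨⟨h1, h2⟩, h4⟩ := mem_UU.1 u.2
  have hq : q ≠ 0 := by omega
  unfold bta
  intro h
  have hx := pow_ne_zero (u : ℕ) (zt_ne q)
  have h5 : zt q ^ (u : ℕ) * zt q ^ (u : ℕ) = 1 := by
    have h6 := sub_eq_zero.1 h
    calc zt q ^ (u : ℕ) * zt q ^ (u : ℕ) = zt q ^ (u : ℕ) * (zt q ^ (u : ℕ))⁻¹ := by
          conv_lhs => rw [h6]
          rw [← h6]
      _ = 1 := mul_inv_cancel₀ hx
  rw [← pow_add] at h5
  have h6 := (zt_prim q hq).dvd_of_pow_eq_one _ h5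
  have h7 : q ∣ (u : ℕ) * 2 := by
    rw [mul_two]
    exact h6
  have h8 := (Nat.Coprime.dvd_mul_left h4.symm).1 h7
  have h9 := Nat.le_of_dvd (by norm_num) h8
  omega

theorem bth_inj (q : ℕ) (u v : UU q) (h : bth q u = bth q v) (huv : v ≠ bnu q u) : u = v := by
  obtain ⟨⟨h1, h2⟩, h4⟩ := mem_UU.1 u.2
  obtain ⟨⟨v1, v2⟩, v4⟩ := mem_UU.1 v.2
  have hq : q ≠ 0 := by omega
  unfold bth at h
  have hx := pow_ne_zero (u : ℕ) (zt_ne q)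
  have hy := pow_ne_zero (v : ℕ) (zt_ne q)
  have h5 : (zt q ^ (u : ℕ) - zt q ^ (v : ℕ)) * (zt q ^ (u : ℕ) * zt q ^ (v : ℕ) - 1) = 0 := by
    field_simp at h
    linear_combination h
  rcases mul_eq_zero.1 h5 with h6 | h6
  · have h7 := (zt_prim q hq).pow_inj (by omega) (by omega) (sub_eq_zero.1 h6)
    exact Subtype.ext h7
  · exfalso
    have h7 := sub_eq_zero.1 h6
    rw [← pow_add] at h7
    obtain ⟨k, hk⟩ := (zt_prim q hq).dvd_of_pow_eq_one _ h7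
    have hk1 : k = 1 := by
      rcases Nat.lt_or_ge k 2 with h8 | h8
      · interval_cases k
        · omega
        · rfl
      · exfalso
        have : q * 2 ≤ q * k := Nat.mul_le_mul_left _ h8
        omega
    subst hk1
    apply huv
    apply Subtype.ext
    rw [bnu_val]
    omega

theorem bth_conj (q : ℕ) (hq : q ≠ 0) (u : UU q) : (starRingEnd ℂ) (bth q u) = bth q u := by
  unfold bth
  rw [map_add, map_inv₀, map_pow, zt_conj q hq, inv_pow, inv_inv, add_comm]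

theorem bta_conj (q : ℕ) (hq : q ≠ 0) (u : UU q) : (starRingEnd ℂ) (bta q u) = -bta q u := by
  unfold bta
  rw [map_sub, map_inv₀, map_pow, zt_conj q hq, inv_pow, inv_inv]
  ring

/-- real polynomials -/
def PR (q : ℕ) (j : ℕ) : Polynomial ℤ := (Polynomial.X + Polynomial.X ^ (q - 1)) ^ j

/-- antireal polynomials -/
def PQ (q g : ℕ) (b : Fin g → ℤ) : Polynomial ℤ :=
  (Polynomial.X - Polynomial.X ^ (q - 1)) * ∑ k : Fin g, Polynomial.C (b k) * PR q k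

theorem zt_pred (q : ℕ) (hq : q ≠ 0) (u : ℕ) : (zt q ^ u) ^ (q - 1) = (zt q ^ u)⁻¹ := by
  rw [← mul_eq_one_iff_eq_inv₀ (pow_ne_zero _ (zt_ne q)), ← pow_succ,
    Nat.sub_add_cancel (by omega), ← pow_mul, mul_comm, pow_mul, zt_pow q hq, one_pow]

theorem pt_PR (q : ℕ) (hq : q ≠ 0) (s : Finset ℕ) (j : ℕ) (u : s) :
    pt q s (PR q j) u = (zt q ^ (u : ℕ) + (zt q ^ (u : ℕ))⁻¹) ^ j := by
  unfold pt PR
  rw [map_pow, map_add, map_pow, Polynomial.aeval_X, zt_pred q hq]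

theorem pt_PQ (q g : ℕ) (hq : q ≠ 0) (s : Finset ℕ) (b : Fin g → ℤ) (u : s) :
    pt q s (PQ q g b) u = (zt q ^ (u : ℕ) - (zt q ^ (u : ℕ))⁻¹) *
      ∑ k : Fin g, (b k : ℂ) * (zt q ^ (u : ℕ) + (zt q ^ (u : ℕ))⁻¹) ^ (k : ℕ) := by
  unfold pt PQ
  rw [map_mul, map_sub, map_pow, Polynomial.aeval_X, zt_pred q hq, map_sum]
  congr 1
  refine Finset.sum_congr rfl fun k _ => ?_
  rw [map_mul, Polynomial.aeval_C]
  have h := pt_PR q hq s k u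
  unfold pt at h
  rw [h]
  simp

theorem pt_PQ_norm (q g : ℕ) (hq : q ≠ 0) (s : Finset ℕ) (b : Fin g → ℤ) :
    ‖pt q s (PQ q g b)‖ ≤ 2 * g * 2 ^ g * ‖b‖ := by
  rw [pi_norm_le_iff_of_nonneg (by positivity)]
  intro u
  rw [pt_PQ q g hq]
  have hx : ‖zt q ^ (u : ℕ)‖ = 1 := by rw [norm_pow, zt_norm q hq, one_pow]
  have hx' : ‖(zt q ^ (u : ℕ))⁻¹‖ = 1 := by rw [norm_inv, hx, inv_one]
  have h1 : ‖zt q ^ (u : ℕ) - (zt q ^ (u : ℕ))⁻¹‖ ≤ 2 := by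
    refine (norm_sub_le _ _).trans ?_
    rw [hx, hx']
    norm_num
  have h2 : ‖zt q ^ (u : ℕ) + (zt q ^ (u : ℕ))⁻¹‖ ≤ 2 := by
    refine (norm_add_le _ _).trans ?_
    rw [hx, hx']
    norm_num
  rw [norm_mul]
  have h3 : ‖∑ k : Fin g, (b k : ℂ) * (zt q ^ (u : ℕ) + (zt q ^ (u : ℕ))⁻¹) ^ (k : ℕ)‖ ≤
      g * (2 ^ g * ‖b‖) := by
    refine (norm_sum_le _ _).trans ?_
    calc ∑ k : Fin g, ‖(b k : ℂ) * (zt q ^ (u : ℕ) + (zt q ^ (u : ℕ))⁻¹) ^ (k : ℕ)‖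
        ≤ ∑ _k : Fin g, 2 ^ g * ‖b‖ := by
          refine Finset.sum_le_sum fun k _ => ?_
          rw [norm_mul, norm_pow, mul_comm]
          refine mul_le_mul ?_ ?_ (norm_nonneg _) (by positivity)
          · exact (pow_le_pow_left₀ (norm_nonneg _) h2 _).trans
              (pow_le_pow_right₀ (by norm_num) k.2.le)
          · rw [Complex.norm_intCast]
            have := norm_le_pi_norm b k
            rwa [Int.norm_eq_abs] at this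
      _ = g * (2 ^ g * ‖b‖) := by
          rw [Finset.sum_const, Finset.card_univ, Fintype.card_fin, nsmul_eq_mul]
  calc _ ≤ 2 * (g * (2 ^ g * ‖b‖)) := mul_le_mul h1 h3 (norm_nonneg _) (by norm_num)
    _ = _ := by ring

/-- growth of the constants -/
theorem cS_bound (q : ℕ) (s : Finset ℕ) (ρ : ℕ → ℂ) (κ : s → ℂ) (c : Polynomial ℤ → ℂ)
    (f0 : (s → ℂ) → ℂ) (h : QPS q s ρ κ c f0) (C : ℝ)
    (hC : ∀ z, ‖f0 z‖ ≤ Real.exp (C * (1 + ‖z‖ ^ 2))) (hne : ∃ z, f0 z ≠ 0) :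
    ∃ C' : ℝ, 0 ≤ C' ∧ ∀ P, (c P).re ≤ C' * (1 + ‖pt q s P‖ ^ 2) := by
  obtain ⟨z0, hz0⟩ := hne
  set Cp : ℝ := max C 0 with hCp
  have hCp0 : 0 ≤ Cp := le_max_right _ _
  set R : s → ℂ := fun u => ρ u with hR
  refine ⟨Cp * (1 + 2 * ‖z0‖ ^ 2 + 2 * ‖R‖ ^ 2) + |Real.log ‖f0 z0‖| +
    Fintype.card s * ‖κ‖ * ‖z0‖, by positivity, fun P => ?_⟩
  set p := pt q s P with hp
  have h1 := h P z0
  have h2 : ‖f0 (z0 + lamS q s ρ P)‖ =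
      Real.exp ((∑ u, κ u * (starRingEnd ℂ) (p u) * z0 u + c P).re) * ‖f0 z0‖ := by
    rw [h1, norm_mul, Complex.norm_exp]
  have h3 := hC (z0 + lamS q s ρ P)
  have hpos : 0 < ‖f0 z0‖ := norm_pos_iff.2 hz0
  have hlam : ‖lamS q s ρ P‖ ≤ ‖R‖ * ‖p‖ := by
    rw [pi_norm_le_iff_of_nonneg (by positivity)]
    intro u
    simp only [lamS, norm_mul]
    exact mul_le_mul (norm_le_pi_norm R u) (norm_le_pi_norm p u) (norm_nonneg _) (norm_nonneg _)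
  have h4 : ‖z0 + lamS q s ρ P‖ ^ 2 ≤ 2 * ‖z0‖ ^ 2 + 2 * (‖R‖ * ‖p‖) ^ 2 := by
    have h5 : ‖z0 + lamS q s ρ P‖ ≤ ‖z0‖ + ‖R‖ * ‖p‖ :=
      (norm_add_le _ _).trans (by linarith)
    calc ‖z0 + lamS q s ρ P‖ ^ 2 ≤ (‖z0‖ + ‖R‖ * ‖p‖) ^ 2 :=
          pow_le_pow_left₀ (norm_nonneg _) h5 2
      _ ≤ _ := by nlinarith [sq_nonneg (‖z0‖ - ‖R‖ * ‖p‖)]
  have h6 : (∑ u, κ u * (starRingEnd ℂ) (p u) * z0 u + c P).re + Real.log ‖f0 z0‖ ≤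
      Cp * (1 + (2 * ‖z0‖ ^ 2 + 2 * (‖R‖ * ‖p‖) ^ 2)) := by
    have h7 : Real.exp ((∑ u, κ u * (starRingEnd ℂ) (p u) * z0 u + c P).re +
        Real.log ‖f0 z0‖) ≤ Real.exp (Cp * (1 + (2 * ‖z0‖ ^ 2 + 2 * (‖R‖ * ‖p‖) ^ 2))) := by
      rw [Real.exp_add, Real.exp_log hpos, ← h2]
      refine h3.trans (Real.exp_le_exp.2 ?_)
      calc C * (1 + ‖z0 + lamS q s ρ P‖ ^ 2) ≤ Cp * (1 + ‖z0 + lamS q s ρ P‖ ^ 2) :=
            mul_le_mul_of_nonneg_right (le_max_left _ _) (by positivity)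
        _ ≤ _ := mul_le_mul_of_nonneg_left (by linarith) hCp0
    exact Real.exp_le_exp.1 h7
  have h8 : -(Fintype.card s * ‖κ‖ * ‖z0‖ * ‖p‖) ≤
      (∑ u, κ u * (starRingEnd ℂ) (p u) * z0 u).re := by
    have h9 : ‖∑ u, κ u * (starRingEnd ℂ) (p u) * z0 u‖ ≤
        Fintype.card s * ‖κ‖ * ‖z0‖ * ‖p‖ := by
      calc ‖∑ u, κ u * (starRingEnd ℂ) (p u) * z0 u‖
          ≤ ∑ u, ‖κ u * (starRingEnd ℂ) (p u) * z0 u‖ := norm_sum_le _ _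
        _ ≤ ∑ _u : s, ‖κ‖ * ‖p‖ * ‖z0‖ := by
            refine Finset.sum_le_sum fun u _ => ?_
            rw [norm_mul, norm_mul, RCLike.norm_conj]
            refine mul_le_mul (mul_le_mul (norm_le_pi_norm κ u) (norm_le_pi_norm p u)
              (norm_nonneg _) (norm_nonneg _)) (norm_le_pi_norm z0 u) (norm_nonneg _)
              (by positivity)
        _ = _ := by
            rw [Finset.sum_const, Finset.card_univ, nsmul_eq_mul]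
            ring
    exact (abs_le.1 ((Complex.abs_re_le_norm _).trans h9)).1
  rw [Complex.add_re] at h6
  have h11 : ‖p‖ ≤ 1 + ‖p‖ ^ 2 := by nlinarith [sq_nonneg (‖p‖ - 1)]
  have h12 : -|Real.log ‖f0 z0‖| ≤ Real.log ‖f0 z0‖ := neg_abs_le _
  have hp2 : 0 ≤ ‖p‖ ^ 2 := by positivity
  have h13 : Fintype.card s * ‖κ‖ * ‖z0‖ * ‖p‖ ≤
      Fintype.card s * ‖κ‖ * ‖z0‖ * (1 + ‖p‖ ^ 2) :=
    mul_le_mul_of_nonneg_left h11 (by positivity)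
  have h14 : Cp * (1 + (2 * ‖z0‖ ^ 2 + 2 * (‖R‖ * ‖p‖) ^ 2)) ≤
      Cp * (1 + 2 * ‖z0‖ ^ 2 + 2 * ‖R‖ ^ 2) * (1 + ‖p‖ ^ 2) := by
    rw [mul_assoc]
    refine mul_le_mul_of_nonneg_left ?_ hCp0
    nlinarith [mul_nonneg (sq_nonneg ‖z0‖) hp2, sq_nonneg ‖R‖]
  have h15 : |Real.log ‖f0 z0‖| ≤ |Real.log ‖f0 z0‖| * (1 + ‖p‖ ^ 2) :=
    le_mul_of_one_le_right (abs_nonneg _) (by linarith)
  nlinarith

theorem cQ_bound (q g : ℕ) (hq : q ≠ 0) (s : Finset ℕ) (ρ : ℕ → ℂ) (κ : s → ℂ)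
    (c : Polynomial ℤ → ℂ) (f0 : (s → ℂ) → ℂ) (h : QPS q s ρ κ c f0) (C : ℝ)
    (hC : ∀ z, ‖f0 z‖ ≤ Real.exp (C * (1 + ‖z‖ ^ 2))) (hne : ∃ z, f0 z ≠ 0) :
    ∃ C' : ℝ, 0 ≤ C' ∧ ∀ b : Fin g → ℤ, (c (PQ q g b)).re ≤ C' * (1 + ‖b‖ ^ 2) := by
  obtain ⟨D, hD0, hD⟩ := cS_bound q s ρ κ c f0 h C hC hne
  obtain ⟨E, hE⟩ : ∃ E : ℝ, E = 2 * g * 2 ^ g := ⟨_, rfl⟩
  have hE0 : 0 ≤ E := by
    rw [hE]
    positivity
  refine ⟨D * (1 + E ^ 2), by positivity, fun b => (hD _).trans ?_⟩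
  rw [mul_assoc]
  refine mul_le_mul_of_nonneg_left ?_ hD0
  have h1 : ‖pt q s (PQ q g b)‖ ≤ E * ‖b‖ := by
    rw [hE]
    exact pt_PQ_norm q g hq s b
  have h2 : ‖pt q s (PQ q g b)‖ ^ 2 ≤ (E * ‖b‖) ^ 2 := pow_le_pow_left₀ (norm_nonneg _) h1 2
  nlinarith [sq_nonneg E, sq_nonneg ‖b‖]

/-! ### the combined multiplier -/

/-- the coefficients of the multiplier on `V` -/
def KK (q : ℕ) (s t : Finset ℕ) (ρ1 ρ2 : ℕ → ℂ) (κ1 : s → ℂ) (κ2 : t → ℂ) (u : UU q) : ℂ :=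
  (if h : (u : ℕ) ∈ s then κ1 ⟨u, h⟩ * ρ1 u else 0) +
  (if h : (u : ℕ) ∈ t then κ2 ⟨u, h⟩ * ρ2 u else 0)

theorem KK_sum (q : ℕ) (s t : Finset ℕ) (ρ1 ρ2 : ℕ → ℂ) (κ1 : s → ℂ) (κ2 : t → ℂ)
    (hs : HS q s) (ht : HS q t) (P : Polynomial ℤ) (x : UU q → ℂ) :
    ∑ u : s, κ1 u * ρ1 u * (starRingEnd ℂ) (pt q s P u) * x ⟨u, HS_mem hs u⟩ +
      ∑ v : t, κ2 v * ρ2 v * (starRingEnd ℂ) (pt q t P v) * x ⟨v, HS_mem ht v⟩ =
    ∑ u, KK q s t ρ1 ρ2 κ1 κ2 u * (starRingEnd ℂ) (pt q (UU q) P u) * x u := by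
  have hs' : s ⊆ UU q := fun u hu => HS_mem hs ⟨u, hu⟩
  have ht' : t ⊆ UU q := fun u hu => HS_mem ht ⟨u, hu⟩
  have e1 : ∑ u : s, κ1 u * ρ1 u * (starRingEnd ℂ) (pt q s P u) * x ⟨u, HS_mem hs u⟩ =
      ∑ u : s, (κ1 u * ρ1 u) *
        (fun v : UU q => (starRingEnd ℂ) (pt q (UU q) P v) * x v) ⟨u, hs' u.2⟩ := by
    refine Finset.sum_congr rfl fun u _ => ?_
    simp only [pt]
    ring
  have e2 : ∑ u : t, κ2 u * ρ2 u * (starRingEnd ℂ) (pt q t P u) * x ⟨u, HS_mem ht u⟩ =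
      ∑ u : t, (κ2 u * ρ2 u) *
        (fun v : UU q => (starRingEnd ℂ) (pt q (UU q) P v) * x v) ⟨u, ht' u.2⟩ := by
    refine Finset.sum_congr rfl fun u _ => ?_
    simp only [pt]
    ring
  rw [e1, e2]
  have s1 := sum_sub hs' (fun u => κ1 u * ρ1 u)
    (fun v : UU q => (starRingEnd ℂ) (pt q (UU q) P v) * x v)
  have s2 := sum_sub ht' (fun u => κ2 u * ρ2 u)
    (fun v : UU q => (starRingEnd ℂ) (pt q (UU q) P v) * x v)
  refine (congrArg₂ (· + ·) s1 s2).trans ?_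
  rw [← Finset.sum_add_distrib]
  refine Finset.sum_congr rfl fun u _ => ?_
  simp only [KK]
  ring

/-- product of two functions, on `V` -/
def FV (q : ℕ) (s t : Finset ℕ) (ρ1 ρ2 : ℕ → ℂ) (hs : HS q s) (ht : HS q t)
    (F : (s → ℂ) → ℂ) (G : (t → ℂ) → ℂ) (x : UU q → ℂ) : ℂ :=
  F (fun u => ρ1 u * x ⟨u, HS_mem hs u⟩) * G (fun v => ρ2 v * x ⟨v, HS_mem ht v⟩)

theorem FV_qp (q : ℕ) (s t : Finset ℕ) (ρ1 ρ2 : ℕ → ℂ) (hs : HS q s) (ht : HS q t)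
    (κ1 : s → ℂ) (κ2 : t → ℂ) (c1 c2 : Polynomial ℤ → ℂ)
    (F : (s → ℂ) → ℂ) (G : (t → ℂ) → ℂ) (hF : QPS q s ρ1 κ1 c1 F) (hG : QPS q t ρ2 κ2 c2 G)
    (P : Polynomial ℤ) (x : UU q → ℂ) :
    FV q s t ρ1 ρ2 hs ht F G (x + pt q (UU q) P) =
      Complex.exp ((∑ u, KK q s t ρ1 ρ2 κ1 κ2 u * (starRingEnd ℂ) (pt q (UU q) P u) * x u) +
        (c1 P + c2 P)) * FV q s t ρ1 ρ2 hs ht F G x := by
  rw [← KK_sum q s t ρ1 ρ2 κ1 κ2 hs ht P x]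
  unfold FV
  have e1 : (fun u : s => ρ1 u * (x + pt q (UU q) P) ⟨u, HS_mem hs u⟩) =
      (fun u : s => ρ1 u * x ⟨u, HS_mem hs u⟩) + lamS q s ρ1 P := by
    funext u
    simp only [Pi.add_apply, lamS, pt]
    ring
  have e2 : (fun u : t => ρ2 u * (x + pt q (UU q) P) ⟨u, HS_mem ht u⟩) =
      (fun u : t => ρ2 u * x ⟨u, HS_mem ht u⟩) + lamS q t ρ2 P := by
    funext u
    simp only [Pi.add_apply, lamS, pt]
    ring
  rw [e1, e2, hF, hG]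
  have e3 : ∑ u : s, κ1 u * (starRingEnd ℂ) (pt q s P u) * (ρ1 u * x ⟨u, HS_mem hs u⟩) =
      ∑ u : s, κ1 u * ρ1 u * (starRingEnd ℂ) (pt q s P u) * x ⟨u, HS_mem hs u⟩ :=
    Finset.sum_congr rfl fun u _ => by ring
  have e4 : ∑ u : t, κ2 u * (starRingEnd ℂ) (pt q t P u) * (ρ2 u * x ⟨u, HS_mem ht u⟩) =
      ∑ u : t, κ2 u * ρ2 u * (starRingEnd ℂ) (pt q t P u) * x ⟨u, HS_mem ht u⟩ :=
    Finset.sum_congr rfl fun u _ => by ring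
  rw [e3, e4]
  generalize ∑ u : s, κ1 u * ρ1 u * (starRingEnd ℂ) (pt q s P u) * x ⟨u, HS_mem hs u⟩ = A
  generalize ∑ u : t, κ2 u * ρ2 u * (starRingEnd ℂ) (pt q t P u) * x ⟨u, HS_mem ht u⟩ = B
  have e5 : A + B + (c1 P + c2 P) = (A + c1 P) + (B + c2 P) := by ring
  rw [e5, Complex.exp_add (A + c1 P) (B + c2 P)]
  ring

/-! ### counting -/

theorem card_H (q : ℕ) (s : Finset ℕ) (hs : HS q s) :
    (univ.filter fun u : UU q => (u : ℕ) ∈ s).card = s.card := by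
  refine Finset.card_bij (fun u _ => (u : ℕ)) ?_ ?_ ?_
  · intro u hu
    exact (mem_filter.1 hu).2
  · intro u _ v _ h
    exact Subtype.ext h
  · intro u hu
    exact ⟨⟨u, HS_mem hs ⟨u, hu⟩⟩, mem_filter.2 ⟨mem_univ _, hu⟩, rfl⟩

theorem half_nu (q : ℕ) (s : Finset ℕ) (hs : HS q s) (u : UU q) :
    (u : ℕ) ∈ s ↔ ((bnu q u : UU q) : ℕ) ∉ s := by
  obtain ⟨⟨h1, h2⟩, h3⟩ := mem_UU.1 u.2
  exact hs.half u h1 (by omega) h3

theorem card_V (q : ℕ) (s t : Finset ℕ) (hs : HS q s) (ht : HS q t) :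
    (univ.filter fun u : UU q => (u : ℕ) ∉ s ∧ (u : ℕ) ∉ t).card = s.card - (s \ t).card := by
  have h1 : (univ.filter fun u : UU q => (u : ℕ) ∉ s ∧ (u : ℕ) ∉ t).card = (s ∩ t).card := by
    refine Finset.card_bij (fun u _ => q - (u : ℕ)) ?_ ?_ ?_
    · intro u hu
      obtain ⟨h2, h3⟩ := (mem_filter.1 hu).2
      rw [mem_inter]
      constructor
      · by_contra h
        exact h2 ((half_nu q s hs u).2 h)
      · by_contra h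
        exact h3 ((half_nu q t ht u).2 h)
    · intro u _ v _ h
      obtain ⟨⟨a1, a2⟩, -⟩ := mem_UU.1 u.2
      obtain ⟨⟨b1, b2⟩, -⟩ := mem_UU.1 v.2
      apply Subtype.ext
      change q - (u : ℕ) = q - (v : ℕ) at h
      omega
    · intro u hu
      rw [mem_inter] at hu
      have hu' : u ∈ UU q := HS_mem hs ⟨u, hu.1⟩
      refine ⟨bnu q ⟨u, hu'⟩, mem_filter.2 ⟨mem_univ _, ?_, ?_⟩, ?_⟩
      · exact (half_nu q s hs ⟨u, hu'⟩).1 hu.1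
      · exact (half_nu q t ht ⟨u, hu'⟩).1 hu.2
      · rw [bnu_val]
        obtain ⟨⟨a1, a2⟩, -⟩ := mem_UU.1 hu'
        simp only
        omega
  have h2 := Finset.card_sdiff_add_card_inter s t
  omega

theorem KK_ne (q : ℕ) (s t : Finset ℕ) (hs : HS q s) (ht : HS q t) (ρ1 ρ2 : ℕ → ℂ)
    (κ1 : s → ℂ) (κ2 : t → ℂ)
    (hk1 : ∀ u (hu : u ∈ s) (hv : u ∈ t), κ1 ⟨u, hu⟩ * ρ1 u + κ2 ⟨u, hv⟩ * ρ2 u ≠ 0)
    (hk2 : ∀ u (hu : u ∈ s) (hv : q - u ∈ t),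
      κ1 ⟨u, hu⟩ * ρ1 u - κ2 ⟨q - u, hv⟩ * ρ2 (q - u) ≠ 0) (u : UU q) :
    KK q s t ρ1 ρ2 κ1 κ2 u ≠ KK q s t ρ1 ρ2 κ1 κ2 (bnu q u) := by
  have key : ∀ u : UU q, (u : ℕ) ∈ s →
      KK q s t ρ1 ρ2 κ1 κ2 u ≠ KK q s t ρ1 ρ2 κ1 κ2 (bnu q u) := by
    intro u hu
    have hu' := (half_nu q s hs u).1 hu
    by_cases hv : (u : ℕ) ∈ t
    · have hv' := (half_nu q t ht u).1 hv
      unfold KK
      rw [dif_pos hu, dif_pos hv, dif_neg hu', dif_neg hv', add_zero]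
      exact hk1 u hu hv
    · have hv' : ((bnu q u : UU q) : ℕ) ∈ t := by
        by_contra h
        exact hv ((half_nu q t ht u).2 h)
      unfold KK
      rw [dif_pos hu, dif_neg hv, dif_neg hu', dif_pos hv', add_zero, zero_add]
      exact sub_ne_zero.1 (hk2 u hu hv')
  by_cases hu : (u : ℕ) ∈ s
  · exact key u hu
  · have hu' : ((bnu q u : UU q) : ℕ) ∈ s := by
      by_contra h
      exact hu ((half_nu q s hs u).2 h)
    have h1 := key (bnu q u) hu'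
    rw [bnu_bnu] at h1
    exact h1.symm

end

end Pool.Agent.Helper53.LX
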