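import Pool.Agent.Helper34.LT.Df

/-!
# LU (PROJECT LT2): immersion at `0` for the product of two abelian varieties, in the form of `him` in
`Z2_semi`.
-/

set_option autoImplicit false

namespace Pool.Agent.Helper53.LX

open Finset Pool.Agent.Helper34.LT

variable {I1 I2 : Type} [Fintype I1] [Fintype I2]

private lemma hp_l (F : (I1 → ℂ) → ℂ) (hF : Differentiable ℂ F) (x : I1 ⊕ I2 → ℂ) :
    HasFDerivAt (fun x : I1 ⊕ I2 → ℂ => F (fun i => x (Sum.inl i)))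
      ((fderiv ℂ F (fun i => x (Sum.inl i))).comp
        (ContinuousLinearMap.pi fun i => ContinuousLinearMap.proj (Sum.inl i))) x := by
  have h1 : HasFDerivAt (fun x : I1 ⊕ I2 → ℂ => (fun i => x (Sum.inl i) : I1 → ℂ))
      (ContinuousLinearMap.pi fun i => ContinuousLinearMap.proj (R := ℂ)
        (φ := fun _ : I1 ⊕ I2 => ℂ) (Sum.inl i)) x :=
    (ContinuousLinearMap.pi fun i => ContinuousLinearMap.proj (R := ℂ)
        (φ := fun _ : I1 ⊕ I2 => ℂ) (Sum.inl i)).hasFDerivAt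
  exact (hF _).hasFDerivAt.comp x h1

private lemma hp_r (F : (I2 → ℂ) → ℂ) (hF : Differentiable ℂ F) (x : I1 ⊕ I2 → ℂ) :
    HasFDerivAt (fun x : I1 ⊕ I2 → ℂ => F (fun i => x (Sum.inr i)))
      ((fderiv ℂ F (fun i => x (Sum.inr i))).comp
        (ContinuousLinearMap.pi fun i => ContinuousLinearMap.proj (Sum.inr i))) x := by
  have h1 : HasFDerivAt (fun x : I1 ⊕ I2 → ℂ => (fun i => x (Sum.inr i) : I2 → ℂ))
      (ContinuousLinearMap.pi fun i => ContinuousLinearMap.proj (R := ℂ)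
        (φ := fun _ : I1 ⊕ I2 => ℂ) (Sum.inr i)) x :=
    (ContinuousLinearMap.pi fun i => ContinuousLinearMap.proj (R := ℂ)
        (φ := fun _ : I1 ⊕ I2 => ℂ) (Sum.inr i)).hasFDerivAt
  exact (hF _).hasFDerivAt.comp x h1

/-- derivative of a product of functions of the two groups of variables -/
private lemma hp_mul (F : (I1 → ℂ) → ℂ) (G : (I2 → ℂ) → ℂ) (hF : Differentiable ℂ F)
    (hG : Differentiable ℂ G) (a : I1 ⊕ I2 → ℂ) :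
    Differentiable ℂ (fun x : I1 ⊕ I2 → ℂ =>
      F (fun i => x (Sum.inl i)) * G (fun i => x (Sum.inr i))) ∧
    fderiv ℂ (fun x : I1 ⊕ I2 → ℂ => F (fun i => x (Sum.inl i)) * G (fun i => x (Sum.inr i))) 0 a =
      F 0 * fderiv ℂ G 0 (fun i => a (Sum.inr i)) + G 0 * fderiv ℂ F 0 (fun i => a (Sum.inl i)) := by
  refine ⟨fun x => ((hp_l F hF x).mul (hp_r G hG x)).differentiableAt, ?_⟩
  have h1 : HasFDerivAt (fun x : I1 ⊕ I2 → ℂ =>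
      F (fun i => x (Sum.inl i)) * G (fun i => x (Sum.inr i))) _ 0 :=
    (hp_l F hF 0).mul (hp_r G hG 0)
  rw [h1.fderiv]
  rfl

/-- immersion at `0` for the product -/
theorem him_prod {A1 A2 : Type} [AddCommGroup A1] [AddCommGroup A2]
    (γ1 : A1 →+ (I1 → ℂ)) (l1 : A1 →+ ((I1 → ℂ) →ₗ[ℂ] ℂ)) (c1 : A1 → ℂ)
    (γ2 : A2 →+ (I2 → ℂ)) (l2 : A2 →+ ((I2 → ℂ) →ₗ[ℂ] ℂ)) (c2 : A2 → ℂ)
    (γ : A1 × A2 →+ (I1 ⊕ I2 → ℂ)) (l : A1 × A2 →+ ((I1 ⊕ I2 → ℂ) →ₗ[ℂ] ℂ)) (c : A1 × A2 → ℂ)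
    (hγ : ∀ a, γ a = Sum.elim (γ1 a.1) (γ2 a.2))
    (hl : ∀ a x, l a x = l1 a.1 (fun i => x (Sum.inl i)) + l2 a.2 (fun i => x (Sum.inr i)))
    (hc : ∀ a, c a = c1 a.1 + c2 a.2)
    (hb1 : ∀ p, ∃ F, Theta γ1 l1 c1 1 F ∧ F p ≠ 0) (hb2 : ∀ p, ∃ F, Theta γ2 l2 c2 1 F ∧ F p ≠ 0)
    (h1 : ∀ a : I1 → ℂ, a ≠ 0 → ∃ F G, Theta γ1 l1 c1 1 F ∧ Theta γ1 l1 c1 1 G ∧
      fderiv ℂ F 0 a * G 0 ≠ F 0 * fderiv ℂ G 0 a)
    (h2 : ∀ a : I2 → ℂ, a ≠ 0 → ∃ F G, Theta γ2 l2 c2 1 F ∧ Theta γ2 l2 c2 1 G ∧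
      fderiv ℂ F 0 a * G 0 ≠ F 0 * fderiv ℂ G 0 a) :
    ∀ a : I1 ⊕ I2 → ℂ, a ≠ 0 → ∃ F G, Theta γ l c 1 F ∧ Theta γ l c 1 G ∧
      fderiv ℂ F 0 a * G 0 ≠ F 0 * fderiv ℂ G 0 a := by
  intro a ha
  have hmul : ∀ (F : (I1 → ℂ) → ℂ) (G : (I2 → ℂ) → ℂ), Theta γ1 l1 c1 1 F → Theta γ2 l2 c2 1 G →
      Theta γ l c 1 (fun x : I1 ⊕ I2 → ℂ =>
        F (fun i => x (Sum.inl i)) * G (fun i => x (Sum.inr i))) := by
    intro F G hF hG
    refine ⟨(hp_mul F G hF.1 hG.1 0).1, fun b z => ?_⟩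
    have e1 := hF.2 b.1 (fun i => z (Sum.inl i))
    have e2 := hG.2 b.2 (fun i => z (Sum.inr i))
    have e3 : (fun i => (z + γ b) (Sum.inl i)) = (fun i => z (Sum.inl i)) + γ1 b.1 := by
      funext i
      rw [hγ]
      rfl
    have e4 : (fun i => (z + γ b) (Sum.inr i)) = (fun i => z (Sum.inr i)) + γ2 b.2 := by
      funext i
      rw [hγ]
      rfl
    simp only at *
    rw [e3, e4, e1, e2, hl, hc]
    have e5 : Complex.exp (((1 : ℕ) : ℂ) * (l1 b.1 (fun i => z (Sum.inl i)) +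
        l2 b.2 (fun i => z (Sum.inr i)) + (c1 b.1 + c2 b.2))) =
        Complex.exp (((1 : ℕ) : ℂ) * (l1 b.1 (fun i => z (Sum.inl i)) + c1 b.1)) *
        Complex.exp (((1 : ℕ) : ℂ) * (l2 b.2 (fun i => z (Sum.inr i)) + c2 b.2)) := by
      rw [← Complex.exp_add]
      congr 1
      ring
    rw [e5]
    ring
  by_cases ha1 : (fun i => a (Sum.inl i)) = (0 : I1 → ℂ)
  · have ha2 : (fun i => a (Sum.inr i)) ≠ (0 : I2 → ℂ) := by
      intro h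
      refine ha ?_
      funext i
      rcases i with i | i
      · exact congrFun ha1 i
      · exact congrFun h i
    obtain ⟨F, G, hF, hG, hFG⟩ := h2 _ ha2
    obtain ⟨K, hK, hK0⟩ := hb1 0
    refine ⟨_, _, hmul K F hK hF, hmul K G hK hG, ?_⟩
    rw [(hp_mul K F hK.1 hF.1 a).2, (hp_mul K G hK.1 hG.1 a).2]
    intro h
    apply hFG
    apply mul_left_cancel₀ (mul_ne_zero hK0 hK0)
    change (K 0 * fderiv ℂ F 0 _ + F 0 * fderiv ℂ K 0 _) * (K 0 * G 0) =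
      K 0 * F 0 * (K 0 * fderiv ℂ G 0 _ + G 0 * fderiv ℂ K 0 _) at h
    linear_combination h
  · obtain ⟨F, G, hF, hG, hFG⟩ := h1 _ ha1
    obtain ⟨K, hK, hK0⟩ := hb2 0
    refine ⟨_, _, hmul F K hF hK, hmul G K hG hK, ?_⟩
    rw [(hp_mul F K hF.1 hK.1 a).2, (hp_mul G K hG.1 hK.1 a).2]
    intro h
    apply hFG
    apply mul_left_cancel₀ (mul_ne_zero hK0 hK0)
    change (F 0 * fderiv ℂ K 0 _ + K 0 * fderiv ℂ F 0 _) * (G 0 * K 0) =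
      F 0 * K 0 * (G 0 * fderiv ℂ K 0 _ + K 0 * fderiv ℂ G 0 _) at h
    linear_combination h

end Pool.Agent.Helper53.LX
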